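import Pool.Agent.TD.X1.Tr
import Pool.Agent.TD.X.Smooth

/-!
# Smooth charts as charts of sets of functions (MP_90358a_ag, section X.b)
-/

open scoped Topology NNReal
open AlgebraicGeometry CategoryTheory

namespace Pool.Agent.TD.X1

variable {n : ℕ} {F : Fan n} {τ σ : F.cones} {S : Set (TropPt F)}

/-- Logarithms of characters which are finite at `b` are additive near `b`. -/
theorem lgT_sub {b : TropPt F} {m1 m2 : Fin n → ℤ} (h1 : m1 ∈ perpM b.cone.1)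
    (h2 : m2 ∈ perpM b.cone.1) {b' : TropPt F} (hb' : b' ∈ TropPt.opn b.cone) :
    lgT (m1 - m2) b' = Real.log (TropPt.absv m1 b') - Real.log (TropPt.absv m2 b') := by
  have k1 : m1 ∈ perpM b'.cone.1 := TropPt.perp_sub hb' h1
  have k2 : m2 ∈ perpM b'.cone.1 := TropPt.perp_sub hb' h2
  have k3 : m1 - m2 ∈ perpM b'.cone.1 := sub_mem k1 k2
  have e1 := TropLoc.lf_perp k1
  have e2 := TropLoc.lf_perp k2
  have e3 := TropLoc.lf_perp k3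
  show (tropLS F).lf (m1 - m2) b' = (tropLS F).lf m1 b' - (tropLS F).lf m2 b'
  rw [e1, e2, e3, ← map_sub]
  rfl

theorem affC_of (hS : ∀ b ∈ S, τ.1 ⊆ b.cone.1) {b : TropPt F} (hb : b ∈ S)
    (hbσ : b ∈ TropPt.opn σ) {g : TropPt F → ℝ} {g' : (dM (perpM τ.1) σ → ℝ) → ℝ}
    (hg : ∀ᶠ b' in 𝓝[S] b, g' (fn (dM (perpM τ.1) σ) b') = g b') (h : AffGerm S b g) :
    R.AffC (fnS τ σ S) (fn (dM (perpM τ.1) σ) b) g' := by
  obtain ⟨m, hm, c, hc⟩ := h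
  obtain ⟨m1, m2, h1, h2, h3, h4, rfl⟩ := exists_split (σ := σ) (ρ := b.cone) hbσ hm
  have t1 : m1 ∈ perpM τ.1 := TropPt.perp_sub (hS b hb) h1
  have t2 : m2 ∈ perpM τ.1 := TropPt.perp_sub (hS b hb) h2
  refine ⟨⟨⟨m1, t1⟩, h3⟩, ⟨⟨m2, t2⟩, h4⟩, c, ?_, ?_, ?_⟩
  · exact TropPt.absv_ne_zero_iff.2 h1
  · exact TropPt.absv_ne_zero_iff.2 h2
  · rw [ev_iff hS hb hbσ]
    have h5 : ∀ᶠ b' in 𝓝[S] b, b' ∈ TropPt.opn b.cone :=
      mem_nhdsWithin_of_mem_nhds ((TropPt.isOpen_opn b.cone).mem_nhds (TropLoc.mem_opn_self b))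
    filter_upwards [hg, hc, h5] with b' k1 k2 k3
    rw [k1, k2, lgT_sub h1 h2 k3]
    rfl

/-- The coordinate map of a chart is a local homeomorphism. -/
theorem map_f {C : TChart F} (hC : C.Ok S) {b : TropPt F} (hb : b ∈ S ∩ C.U) :
    Filter.map C.f (𝓝[S] b) = 𝓝[TMod C.k C.r C.M] (C.f b) := by
  have e1 : 𝓝[S] b = 𝓝[S ∩ C.U] b :=
    (nhdsWithin_inter_of_mem' (mem_nhdsWithin_of_mem_nhds
      (hC.homeo.openU.mem_nhds hb.2))).symm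
  have hfb := hC.homeo.mapf b hb
  have e2 : 𝓝[TMod C.k C.r C.M] (C.f b) = 𝓝[C.Im] (C.f b) :=
    (nhdsWithin_inter_of_mem' (mem_nhdsWithin_of_mem_nhds
      (hC.homeo.openV.mem_nhds hfb.2))).symm
  rw [e1, e2]
  refine le_antisymm ?_ ?_
  · refine tendsto_nhdsWithin_iff.2 ⟨hC.homeo.contf b hb, ?_⟩
    filter_upwards [self_mem_nhdsWithin] with b' hb'
    exact hC.homeo.mapf b' hb'
  · have h1 : Filter.Tendsto C.g (𝓝[C.Im] (C.f b)) (𝓝[S ∩ C.U] b) := by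
      refine tendsto_nhdsWithin_iff.2 ⟨?_, ?_⟩
      · have h2 := hC.homeo.contg (C.f b) hfb
        have h3 : Filter.Tendsto C.g (𝓝[C.Im] (C.f b)) (𝓝 (C.g (C.f b))) := h2
        rwa [hC.homeo.gf b hb] at h3
      · filter_upwards [self_mem_nhdsWithin] with v hv
        exact hC.homeo.mapg v hv
    have h2 : Filter.map C.f (Filter.map C.g (𝓝[C.Im] (C.f b))) = 𝓝[C.Im] (C.f b) := by
      rw [Filter.map_map]
      refine (Filter.map_congr (m₂ := id) ?_).trans Filter.map_id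
      filter_upwards [self_mem_nhdsWithin] with v hv
      exact hC.homeo.fg v hv
    rw [← h2]
    exact Filter.map_mono h1

/-- A smooth chart of `S` gives a smooth chart of the corresponding set of functions. -/
theorem exists_gchart (hS : ∀ b ∈ S, τ.1 ⊆ b.cone.1) {C : TChart F} (hC : C.Ok S)
    {w : TropPt F} (hw : w ∈ S) (hwσ : w ∈ TropPt.opn σ) (hwU : w ∈ C.U) :
    ∃ (x : Fin C.k → (dM (perpM τ.1) σ → ℝ) → ℝ) (y : Fin (C.r + 1) → (dM (perpM τ.1) σ → ℝ) → ℝ)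
      (U : Set (dM (perpM τ.1) σ → ℝ)),
      R.GChart (fnS τ σ S) (fn (dM (perpM τ.1) σ) w) x y C.M 0 U := by
  classical
  have : Nonempty (TropPt F) := ⟨w⟩
  set f0 := fn (dM (perpM τ.1) σ) with hf0
  have hif : ∀ b ∈ S, b ∈ TropPt.opn σ → ifn τ σ S (f0 b) = b := fun b hb hbσ =>
    ifn_fn hS hb hbσ
  -- the open set
  have hA : ∀ a ∈ f0 '' (S ∩ TropPt.opn σ ∩ C.U), f0 '' (S ∩ TropPt.opn σ ∩ C.U) ∈
      𝓝[fnS τ σ S] a := by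
    rintro _ ⟨b, ⟨⟨hb, hbσ⟩, hbU⟩, rfl⟩
    rw [hf0, ← map_fn hS hb hbσ]
    refine Filter.image_mem_map ?_
    exact Filter.inter_mem (Filter.inter_mem self_mem_nhdsWithin
      (mem_nhdsWithin_of_mem_nhds ((TropPt.isOpen_opn σ).mem_nhds hbσ)))
      (mem_nhdsWithin_of_mem_nhds (hC.homeo.openU.mem_nhds hbU))
  obtain ⟨U, hU, hTU⟩ := exists_open (Set.image_mono Set.inter_subset_left) hA
  have hTU' : fnS τ σ S ∩ U = f0 '' (S ∩ TropPt.opn σ ∩ C.U) := hTU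
  refine ⟨fun i f => (C.f (ifn τ σ S f)).1 i, fun e f => (C.f (ifn τ σ S f)).2 e, U, ?_⟩
  have hcm : ∀ f, R.cm (fun (i : Fin C.k) f => (C.f (ifn τ σ S f)).1 i)
      (fun (e : Fin (C.r + 1)) f => (C.f (ifn τ σ S f)).2 e) f = C.f (ifn τ σ S f) := fun f => rfl
  have hev : ∀ b ∈ S, b ∈ TropPt.opn σ → ∀ᶠ b' in 𝓝[S] b, ifn τ σ S (f0 b') = b' := by
    intro b hb hbσ
    have h1 : ∀ᶠ b' in 𝓝[S] b, b' ∈ TropPt.opn σ :=
      mem_nhdsWithin_of_mem_nhds ((TropPt.isOpen_opn σ).mem_nhds hbσ)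
    filter_upwards [h1, self_mem_nhdsWithin] with b' k1 k2
    exact hif b' k2 k1
  have hmod : R.Mdl (Fin C.k) C.M 0 = TMod C.k C.r C.M := by
    ext p
    constructor
    · rintro ⟨h1, h2, h3⟩
      exact ⟨h1, h3, h2⟩
    · rintro ⟨h1, h2, h3⟩
      exact ⟨h1, h3, h2⟩
  constructor
  · exact hC.ground
  · exact hC.loopless
  · exact hU
  · exact ⟨w, ⟨hw, hwσ⟩, rfl⟩
  · have h1 : f0 w ∈ fnS τ σ S ∩ U := by
      rw [hTU']
      exact ⟨w, ⟨⟨hw, hwσ⟩, hwU⟩, rfl⟩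
    exact h1.2
  · rw [hTU']
    rintro _ ⟨b, ⟨⟨hb, hbσ⟩, hbU⟩, rfl⟩ _ ⟨b', ⟨⟨hb', hbσ'⟩, hbU'⟩, rfl⟩ e
    rw [hcm, hcm, hif b hb hbσ, hif b' hb' hbσ'] at e
    have h1 := congrArg C.g e
    rw [hC.homeo.gf b ⟨hb, hbU⟩, hC.homeo.gf b' ⟨hb', hbU'⟩] at h1
    rw [h1]
  · rw [hTU']
    rintro _ ⟨b, ⟨⟨hb, hbσ⟩, hbU⟩, rfl⟩
    rw [hcm, hif b hb hbσ, hmod, ← map_f hC ⟨hb, hbU⟩, hf0, ← map_fn hS hb hbσ, Filter.map_map]
    refine Filter.map_congr ?_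
    filter_upwards [hev b hb hbσ] with b' hb'
    show C.f (ifn τ σ S (f0 b')) = C.f b'
    rw [hb']
  · rw [hTU']
    rintro _ ⟨b, ⟨⟨hb, hbσ⟩, hbU⟩, rfl⟩ i hi
    have h1 : (C.f b).1 i ≠ 0 := by
      have h2 : (C.f (ifn τ σ S (f0 b))).1 i ≠ 0 := hi
      rwa [hif b hb hbσ] at h2
    refine affC_of hS hb hbσ ?_ ((hC.aff b ⟨hb, hbU⟩).1 i h1)
    filter_upwards [hev b hb hbσ] with b' hb'
    show Real.log ((C.f (ifn τ σ S (f0 b'))).1 i) = _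
    rw [hb']
  · rw [hTU']
    rintro _ ⟨b, ⟨⟨hb, hbσ⟩, hbU⟩, rfl⟩ e
    refine affC_of hS hb hbσ ?_ ((hC.aff b ⟨hb, hbU⟩).2 e)
    filter_upwards [hev b hb hbσ] with b' hb'
    show (C.f (ifn τ σ S (f0 b'))).2 e = _
    rw [hb']
  · rw [hTU']
    rintro _ ⟨b, ⟨⟨hb, hbσ⟩, hbU⟩, rfl⟩ m hm
    have h1 : m.1.1 ∈ perpM b.cone.1 := TropPt.absv_ne_zero_iff.1 hm
    obtain ⟨a, c, d, h2, h3⟩ := hC.gen b ⟨hb, hbU⟩ m.1.1 h1
    refine ⟨a, c, d, ?_, ?_⟩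
    · intro i hi
      have h4 : (C.f (ifn τ σ S (f0 b))).1 i = 0 := hi
      rw [hif b hb hbσ] at h4
      exact h2 i h4
    · rw [hf0, ev_iff hS hb hbσ]
      filter_upwards [hev b hb hbσ, h3] with b' hb' h4
      show lgT m.1.1 b' = ∑ i, (a i : ℝ) * Real.log ((C.f (ifn τ σ S (f0 b'))).1 i) +
        ∑ e, (c e : ℝ) * (C.f (ifn τ σ S (f0 b'))).2 e + d
      rw [hb', h4]
      ring

end Pool.Agent.TD.X1
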