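import Pool.Agent.TD.X1.Tr
import Pool.Agent.TD.X.Smooth
import Pool.Agent.TD.FA.Qn
import Mathlib.Algebra.Category.Grp.Injective

/-!
# The weights (MP_90358a_ag, section X.b)
-/

open scoped Topology NNReal
open AlgebraicGeometry CategoryTheory

namespace Pool.Agent.TD.X1

section lin

variable {n : ℕ}

/-- Homomorphisms to `ℝ` on a group of characters are given by vectors. -/
theorem exists_vec (N : AddSubgroup (Fin n → ℤ)) (l : N →+ ℝ) :
    ∃ x : Fin n → ℝ, ∀ m : N, l m = pair m.1 x := by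
  have hinj : Module.Injective ℤ ℝ := (Module.Baer.of_divisible ℝ).injective
  obtain ⟨h, hh⟩ := hinj.out N.toIntSubmodule.subtype Subtype.val_injective l.toIntLinearMap
  refine ⟨fun i => h (Pi.single i 1), fun m => ?_⟩
  have h1 : l m = h m.1 := (hh m).symm
  rw [h1]
  have h2 : m.1 = ∑ i, m.1 i • (Pi.single i (1 : ℤ) : Fin n → ℤ) := by
    funext j
    rw [Finset.sum_apply]
    simp only [Pi.smul_apply, Pi.single_apply, smul_eq_mul, mul_ite, mul_one, mul_zero,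
      Finset.sum_ite_eq, Finset.mem_univ, if_true]
  conv_lhs => rw [h2]
  rw [map_sum]
  unfold pair
  refine Finset.sum_congr rfl fun i _ => ?_
  rw [map_smul, zsmul_eq_mul]

/-- The pairing as a linear map. -/
noncomputable def pN (N : AddSubgroup (Fin n → ℤ)) : (Fin n → ℝ) →ₗ[ℝ] (N →+ ℝ) where
  toFun x := AddMonoidHom.mk' (fun m => pair m.1 x) fun a b => pair_add_left a.1 b.1 x
  map_add' x y := by
    ext m
    exact pair_add_right m.1 x y
  map_smul' c x := by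
    ext m
    exact pair_smul_right m.1 c x

theorem pN_apply (N : AddSubgroup (Fin n → ℤ)) (x : Fin n → ℝ) (m : N) : pN N x m = pair m.1 x :=
  rfl

end lin

variable {K : Type} [NormedField K] {X Y : Scheme.{0}} {n : ℕ} {F : Fan n} {ι : Str K Y}
  (T : Toric F Y ι) (φ : X ⟶ Y) [IsClosedImmersion φ] [IsIntegral X]

/-- The point of the stratum of `gc` given by a homomorphism. -/
noncomputable def ptG (b : perpM (gc T φ).1 →+ ℝ) : TropPt F := ⟨gc T φ, b⟩

omit [IsClosedImmersion φ] in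
theorem absv_ptG (b : perpM (gc T φ).1 →+ ℝ) (m : perpM (gc T φ).1) :
    TropPt.absv m.1 (ptG T φ b) = Real.exp (b m) :=
  TropLoc.absv_perp (b := ptG T φ b) m.2

omit [IsClosedImmersion φ] in
theorem fn_ptG (σ : F.cones) (b : perpM (gc T φ).1 →+ ℝ) :
    fn (dM (perpM (gc T φ).1) σ) (ptG T φ b) = fun m => Real.exp (b m.1) := by
  funext m
  exact absv_ptG T φ b m.1

theorem ptG_mem {σ : F.cones} (h : (gc T φ).1 ⊆ σ.1) {b : perpM (gc T φ).1 →+ ℝ}
    (hb : (fun m : dM (perpM (gc T φ).1) σ => Real.exp (b m.1)) ∈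
      Set.range (X2.tr (K := K) (chi T φ (perpM (gc T φ).1) σ))) : ptG T φ b ∈ T.TropX φ := by
  rw [range_tr'] at hb
  obtain ⟨b1, ⟨h1, h2⟩, h3⟩ := hb
  rw [← fn_ptG] at h3
  have h4 : b1 = ptG T φ b := fn_inj ⟨gc_le_of_mem T φ h1, h2⟩ ⟨Set.Subset.refl _, h⟩ h3
  rwa [h4] at h1

theorem isReg_ptG {σ : F.cones} (h : (gc T φ).1 ⊆ σ.1) {b : perpM (gc T φ).1 →+ ℝ}
    {Λ : Submodule ℝ (perpM (gc T φ).1 →+ ℝ)}
    (hΛ : X2.LinAbs (Set.range (X2.tr (K := K) (chi T φ (perpM (gc T φ).1) σ))) b Λ) :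
    ∀ᶠ b' in 𝓝 (ptG T φ b), b' ∈ T.TropX φ ↔
      ∃ x ∈ Λ.comap (pN (perpM (gc T φ).1)), IsTr (ptG T φ b) b' x := by
  obtain ⟨O, hO, hbO, hΛ⟩ := hΛ
  rw [range_tr'] at hΛ
  have hσ : ptG T φ b ∈ TropPt.opn σ := h
  have h1 : ∀ᶠ b' in 𝓝 (ptG T φ b), fn (dM (perpM (gc T φ).1) σ) b' ∈ O := by
    refine (continuousAt_fn hσ).eventually_mem (hO.mem_nhds ?_)
    rw [fn_ptG]
    exact hbO
  have h2 : ∀ᶠ b' in 𝓝 (ptG T φ b), b' ∈ TropPt.opn (gc T φ) :=
    (TropPt.isOpen_opn _).mem_nhds (Set.Subset.refl _)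
  filter_upwards [h1, h2] with b' k1 k2
  have k3 : b' ∈ TropPt.opn σ := Set.Subset.trans k2 h
  have hiff := hΛ _ k1
  constructor
  · intro hb'
    have hcone : b'.cone = gc T φ :=
      Subtype.ext (Set.Subset.antisymm k2 (gc_le_of_mem T φ hb'))
    obtain ⟨l, hl, hlm⟩ := hiff.1 ⟨b', ⟨hb', k3⟩, rfl⟩
    obtain ⟨x, hx⟩ := exists_vec _ l
    refine ⟨x, ?_, hcone, fun m => ?_⟩
    · have e : pN (perpM (gc T φ).1) x = l := by
        ext m
        exact (hx m).symm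
      show pN (perpM (gc T φ).1) x ∈ Λ
      rw [e]
      exact hl
    · by_cases hm : m ∈ perpM (gc T φ).1
      · obtain ⟨m1, m2, q1, q2, q3, q4, rfl⟩ := exists_split (σ := σ) (ρ := gc T φ) h hm
        have hmb : ∀ m : Fin n → ℤ, m ∈ perpM (gc T φ).1 → m ∈ perpM b'.cone.1 := by
          intro m hm
          rw [hcone]
          exact hm
        have val : ∀ (m : Fin n → ℤ) (hm : m ∈ perpM (gc T φ).1), m ∈ dualM σ.1 →
            b'.val ⟨m, hmb m hm⟩ = b ⟨m, hm⟩ + pair m x := by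
          intro m hm hmσ
          have e1 := hlm ⟨⟨m, hm⟩, hmσ⟩
          have e2 : fn (dM (perpM (gc T φ).1) σ) b' ⟨⟨m, hm⟩, hmσ⟩ =
              Real.exp (b'.val ⟨m, hmb m hm⟩) := TropLoc.absv_perp _
          rw [e2, ← Real.exp_add] at e1
          have e3 := Real.exp_injective e1
          rw [e3, hx]
        rw [TropLoc.absv_perp (hmb _ hm), TropLoc.absv_perp (b := ptG T φ b) hm, ← Real.exp_add]
        congr 1
        have e4 : (⟨m1 - m2, hmb _ hm⟩ : perpM b'.cone.1) = ⟨m1, hmb _ q1⟩ - ⟨m2, hmb _ q2⟩ := rfl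
        have e5 : (⟨m1 - m2, hm⟩ : perpM (gc T φ).1) = ⟨m1, q1⟩ - ⟨m2, q2⟩ := rfl
        have e6 : (ptG T φ b).val ⟨m1 - m2, hm⟩ = b ⟨m1, q1⟩ - b ⟨m2, q2⟩ := by
          show b ⟨m1 - m2, hm⟩ = _
          rw [e5, map_sub]
        have e7 : pair (m1 - m2) x = pair m1 x - pair m2 x := by
          rw [sub_eq_add_neg, pair_add_left, pair_neg_left, sub_eq_add_neg]
        rw [e4, map_sub, val m1 q1 q3, val m2 q2 q4, e6, e7]
        ring
      · have hm' : m ∉ perpM b'.cone.1 := by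
          rw [hcone]
          exact hm
        rw [TropLoc.absv_not hm', TropLoc.absv_not (b := ptG T φ b) hm, zero_mul]
  · rintro ⟨x, hx, hcone, hval⟩
    have h3 : fn (dM (perpM (gc T φ).1) σ) b' ∈ fnS (gc T φ) σ (T.TropX φ) := by
      rw [hiff]
      refine ⟨_, hx, fun m => ?_⟩
      have e1 : fn (dM (perpM (gc T φ).1) σ) b' m = TropPt.absv m.1.1 b' := rfl
      rw [e1, hval, absv_ptG]
      rfl
    obtain ⟨b2, ⟨h4, h5⟩, h6⟩ := h3
    have h7 : b2 = b' := by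
      refine fn_inj ⟨gc_le_of_mem T φ h4, h5⟩ ⟨?_, k3⟩ h6
      show (gc T φ).1 ⊆ b'.cone.1
      rw [hcone]
      exact Set.Subset.refl _
    rwa [← h7]

omit [IsClosedImmersion φ] in
theorem isCon_ptG {b : perpM (gc T φ).1 →+ ℝ} {Λ : Submodule ℝ (Fin n → ℝ)}
    (h : ∀ᶠ b' in 𝓝 (ptG T φ b), b' ∈ T.TropX φ ↔ ∃ x ∈ Λ, IsTr (ptG T φ b) b' x)
    {m : Fin n → ℤ} (hm : m ∈ perpM (gc T φ).1) (hm' : ∀ x ∈ Λ, pair m x = 0) :
    IsCon (T.TropX φ) (ptG T φ b) m := by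
  refine ⟨hm, ?_⟩
  filter_upwards [nhdsWithin_le_nhds h, self_mem_nhdsWithin] with b' h1 h2
  obtain ⟨x, hx, -, hv⟩ := h1.1 h2
  unfold lgT
  rw [hv m, hm' x hx, Real.exp_zero, mul_one]

omit [IsClosedImmersion φ] in
/-- A point of the analytification over a point of the open stratum. -/
theorem exists_fib {b : perpM (gc T φ).1 →+ ℝ} (hb : ptG T φ b ∈ T.TropX φ) :
    ∃ z : Ber K (Ax T φ (gc T φ)), z ∈ FA.Fib K (chi' T φ (gc T φ)) b := by
  obtain ⟨z0, hz0⟩ := hb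
  have h1 : z0 ∈ An.opn (Str.pb φ ι) (opX φ (T.U (gc T φ))) := by
    rw [← tropX_mem_opn, hz0]
    exact Set.Subset.refl _
  refine ⟨tb T φ (gc T φ) ⟨z0, h1⟩, fun m => ?_⟩
  have h2 := absv_tropX T φ h1 ⟨m.1, TropPt.perp_dual m.2⟩
  rw [hz0, absv_ptG] at h2
  exact h2.symm

omit [IsClosedImmersion φ] in
/-- Linear combinations of characters in the ring of the open stratum. -/
theorem linX_eq {j : ℕ} (m : Fin j → Sg (gc T φ).1) (a : Fin j → K) :
    (T.linX φ m a : Ax T φ (gc T φ)) =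
      ∑ i, algebraMap K (Ax T φ (gc T φ)) (a i) * chS T φ (gc T φ) (m i) := by
  show fnH φ (T.U (gc T φ)) (∑ i, stK ι (T.U (gc T φ)) (a i) * T.chi (gc T φ) (m i)) = _
  rw [map_sum]
  refine Finset.sum_congr rfl fun i _ => ?_
  rw [map_mul]
  exact congrArg (fun b : Fn X (opX φ (T.U (gc T φ))) => b * fnH φ (T.U (gc T φ))
    (T.chi (gc T φ) (m i))) (alg_eq T φ (gc T φ) (a i)).symm

omit [IsClosedImmersion φ] in
/-- The quotient norm of a linear combination of characters. -/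
theorem qn_lin [IsUltrametricDist K] (b : perpM (gc T φ).1 →+ ℝ) {j : ℕ}
    (m : Fin j → Sg (gc T φ).1) (a : Fin j → K) {r : ℝ} (hr : 0 ≤ r)
    (h : ∀ i, ‖a i‖ * TropPt.absv (m i).m (ptG T φ b) ≤ r) :
    (FA.qn (K := K) (chi' T φ (gc T φ)) b
      (∑ i, algebraMap K (Ax T φ (gc T φ)) (a i) * chS T φ (gc T φ) (m i)) : ℝ) ≤ r := by
  classical
  let G : Fin j → (perpM (gc T φ).1 →₀ K) := fun i =>
    if hm : (m i).m ∈ perpM (gc T φ).1 then Finsupp.single ⟨(m i).m, hm⟩ (a i) else 0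
  have h1 : FA.ev (chi' T φ (gc T φ)) (∑ i, G i) =
      ∑ i, algebraMap K (Ax T φ (gc T φ)) (a i) * chS T φ (gc T φ) (m i) := by
    rw [FA.Qn.ev_eq, map_sum]
    refine Finset.sum_congr rfl fun i _ => ?_
    by_cases hm : (m i).m ∈ perpM (gc T φ).1
    · have e : G i = Finsupp.single ⟨(m i).m, hm⟩ (a i) := dif_pos hm
      rw [e, Finsupp.linearCombination_single, Algebra.smul_def]
      rfl
    · have e : G i = 0 := dif_neg hm
      rw [e, map_zero, chS_eq_zero T φ hm, mul_zero]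
  rw [← h1]
  have h2 : BG.nrm (FA.wt b) (∑ i, G i) ≤ r.toNNReal := by
    refine (BG.nrm_sum_le _ _).trans (Finset.sup_le fun i _ => ?_)
    by_cases hm : (m i).m ∈ perpM (gc T φ).1
    · have e : G i = Finsupp.single ⟨(m i).m, hm⟩ (a i) := dif_pos hm
      rw [e]
      refine (FA.Qn.nrm_single_le _ _ _).trans ?_
      rw [← NNReal.coe_le_coe, NNReal.coe_mul, FA.Qn.coe_wt, coe_nnnorm, Real.coe_toNNReal _ hr]
      have h3 := h i
      rw [absv_ptG T φ b ⟨(m i).m, hm⟩] at h3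
      exact h3
    · have e : G i = 0 := dif_neg hm
      rw [e, BG.nrm_zero]
      exact bot_le
  have h3 := (FA.qn_le (K := K) (chi := chi' T φ (gc T φ)) (w := b) (∑ i, G i)).trans h2
  rw [← NNReal.coe_le_coe, Real.coe_toNNReal _ hr] at h3
  exact h3

/-- The weights of `Trop(X)` are one: near constants. -/
theorem wt_of [IsUltrametricDist K] {σ : F.cones} (h : (gc T φ).1 ⊆ σ.1)
    (hW : ∀ b ∈ T.TropX φ, IsReg (T.TropX φ) b → T.IsWeight φ b 1) :
    X2.Wt K (chi T φ (perpM (gc T φ).1) σ) (chi' T φ (gc T φ)) := by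
  classical
  intro b hb Λ hΛ m hm
  have hC := chars T φ (σ := σ) h
  have hb0 : ptG T φ b ∈ T.TropX φ := ptG_mem T φ h hb
  have hreg := isReg_ptG T φ h hΛ
  have hw := hW _ hb0 ⟨_, hreg⟩
  have hcon : ∀ m : perpM (gc T φ).1, (∀ l ∈ Λ, l m = 0) →
      IsCon (T.TropX φ) (ptG T φ b) m.1 := fun m hm =>
    isCon_ptG T φ hreg m.2 fun x hx => hm _ hx
  by_cases hm0 : m = 0
  · refine ⟨1, ?_⟩
    rw [hm0, hC.zero', map_one, sub_self, FA.qn_zero, NNReal.coe_zero]
    exact Real.exp_pos _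
  -- two characters which are constant are not orthogonal
  have hno : ¬ T.Orth φ (ptG T φ b) (![⟨m.1, TropPt.perp_dual m.2⟩, 0] :
      Fin 2 → Sg (gc T φ).1) := by
    intro hO
    have h2 : (2 : ℕ) ≤ 1 := by
      refine hw.2 ⟨![⟨m.1, TropPt.perp_dual m.2⟩, 0], ?_, ?_, hO⟩
      · intro i j hij
        have hne : (⟨m.1, TropPt.perp_dual m.2⟩ : Sg (gc T φ).1) ≠ 0 := by
          intro e
          have e' : m.1 = 0 := congrArg (fun q : Sg (gc T φ).1 => q.m) e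
          exact hm0 (Subtype.ext e')
        fin_cases i <;> fin_cases j
        · rfl
        · exact absurd hij hne
        · exact absurd hij.symm hne
        · rfl
      · intro i
        fin_cases i
        · exact hcon m hm
        · exact hcon 0 fun l _ => map_zero l
    omega
  unfold Toric.Orth at hno
  push Not at hno
  obtain ⟨a, l, m', a', he, r, hr, hle, i, hi⟩ := hno
  obtain ⟨z, hz⟩ := exists_fib T φ hb0
  have e1 := linX_eq T φ (![⟨m.1, TropPt.perp_dual m.2⟩, 0] : Fin 2 → Sg (gc T φ).1) a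
  have e2 := linX_eq T φ m' a'
  rw [Fin.sum_univ_two] at e1
  have e3 : algebraMap K (Ax T φ (gc T φ)) (a 0) * chi' T φ (gc T φ) m +
      algebraMap K (Ax T φ (gc T φ)) (a 1) =
      ∑ i, algebraMap K (Ax T φ (gc T φ)) (a' i) * chS T φ (gc T φ) (m' i) := by
    rw [← e2]
    refine Eq.trans ?_ (e1.symm.trans he)
    have e4 : chS T φ (gc T φ) ((![⟨m.1, TropPt.perp_dual m.2⟩, 0] :
        Fin 2 → Sg (gc T φ).1) 1) = 1 := chS_zero T φ (gc T φ)
    rw [e4, mul_one]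
    rfl
  have hq := qn_lin T φ b m' a' hr hle
  rw [← e3] at hq
  have hv := (FA.v_le_qn hC.span' hz (algebraMap K (Ax T φ (gc T φ)) (a 0) *
    chi' T φ (gc T φ) m + algebraMap K (Ax T φ (gc T φ)) (a 1))).trans hq
  -- the two terms have the same value
  have v0 : z.v (algebraMap K (Ax T φ (gc T φ)) (a 0) * chi' T φ (gc T φ) m) =
      ‖a 0‖ * Real.exp (b m) := by
    rw [z.mul, z.ext, hz m]
  have v1 : z.v (algebraMap K (Ax T φ (gc T φ)) (a 1)) = ‖a 1‖ := z.ext _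
  have hbig : r < ‖a 0‖ * Real.exp (b m) ∨ r < ‖a 1‖ := by
    fin_cases i
    · left
      have h3 : r < ‖a 0‖ * TropPt.absv m.1 (ptG T φ b) := hi
      rwa [absv_ptG] at h3
    · right
      have h3 : r < ‖a 1‖ * TropPt.absv (0 : perpM (gc T φ).1).1 (ptG T φ b) := hi
      rw [absv_ptG, map_zero, Real.exp_zero, mul_one] at h3
      exact h3
  have heq : ‖a 0‖ * Real.exp (b m) = ‖a 1‖ := by
    by_contra hne
    have h4 : z.v (algebraMap K (Ax T φ (gc T φ)) (a 0) * chi' T φ (gc T φ) m +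
        algebraMap K (Ax T φ (gc T φ)) (a 1)) = max (‖a 0‖ * Real.exp (b m)) ‖a 1‖ := by
      rcases lt_or_gt_of_ne hne with h5 | h5
      · rw [max_eq_right h5.le, add_comm, ← v1]
        exact z.add_eq (by rw [v0, v1]; exact h5)
      · rw [max_eq_left h5.le, ← v0]
        exact z.add_eq (by rw [v0, v1]; exact h5)
    rw [h4] at hv
    rcases hbig with h5 | h5
    · exact absurd ((le_max_left _ _).trans hv) (not_le.2 h5)
    · exact absurd ((le_max_right _ _).trans hv) (not_le.2 h5)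
  have hlt : r < ‖a 0‖ * Real.exp (b m) := by
    rcases hbig with h5 | h5
    · exact h5
    · rw [heq]
      exact h5
  have ha0 : a 0 ≠ 0 := by
    intro h0
    rw [h0, norm_zero, zero_mul] at hlt
    exact absurd hlt (not_lt.2 hr)
  have hna : 0 < ‖a 0‖ := norm_pos_iff.2 ha0
  refine ⟨-(a 1) / a 0, ?_⟩
  have e5 : chi' T φ (gc T φ) m - algebraMap K (Ax T φ (gc T φ)) (-(a 1) / a 0) =
      algebraMap K (Ax T φ (gc T φ)) (a 0)⁻¹ * (algebraMap K (Ax T φ (gc T φ)) (a 0) *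
        chi' T φ (gc T φ) m + algebraMap K (Ax T φ (gc T φ)) (a 1)) := by
    have e6 : algebraMap K (Ax T φ (gc T φ)) (a 0)⁻¹ * algebraMap K (Ax T φ (gc T φ)) (a 0) = 1 := by
      rw [← map_mul, inv_mul_cancel₀ ha0, map_one]
    rw [mul_add, ← mul_assoc, e6, one_mul, div_eq_mul_inv, map_mul, map_neg]
    ring
  rw [e5]
  have h6 := FA.qn_mul (w := b) hC.zero' hC.add' hC.span'
    (algebraMap K (Ax T φ (gc T φ)) (a 0)⁻¹) (algebraMap K (Ax T φ (gc T φ)) (a 0) *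
        chi' T φ (gc T φ) m + algebraMap K (Ax T φ (gc T φ)) (a 1))
  rw [← NNReal.coe_le_coe, NNReal.coe_mul] at h6
  have h7 := FA.qn_C (K := K) (w := b) hC.zero' (a 0)⁻¹
  calc _ ≤ _ := h6
    _ ≤ ‖(a 0)⁻¹‖ * r := mul_le_mul h7 hq (NNReal.coe_nonneg _) (norm_nonneg _)
    _ < Real.exp (b m) := by
      rw [norm_inv, inv_mul_lt_iff₀ hna]
      exact hlt

end Pool.Agent.TD.X1
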