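import Pool.Agent.TD.X1.Chr
import Pool.Agent.TD.Y.Cone3
import Pool.Agent.TD.X2.Loc

/-!
# The chart rings of a subvariety are spanned by characters (MP_90358a_ag, section X.b)
-/

open scoped Topology NNReal
open AlgebraicGeometry CategoryTheory

namespace Pool.Agent.TD.X1

section cone

variable {n : ℕ} {F : Fan n}

/-- The characters which vanish on a face are differences of such characters in `S_σ`. -/
theorem exists_split {σ ρ : F.cones} (h : ρ.1 ⊆ σ.1) {m : Fin n → ℤ} (hm : m ∈ perpM ρ.1) :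
    ∃ m1 m2 : Fin n → ℤ, m1 ∈ perpM ρ.1 ∧ m2 ∈ perpM ρ.1 ∧ m1 ∈ dualM σ.1 ∧ m2 ∈ dualM σ.1 ∧
      m = m1 - m2 := by
  obtain ⟨m0, h0, hf⟩ := F.face_of_sub h
  have h0' : m0 ∈ dualM σ.1 := h0
  have h1 : m0 ∈ perpM ρ.1 := by
    intro x hx
    rw [hf] at hx
    exact hx.2
  have h2 : m ∈ dualM {x ∈ σ.1 | pair m0 x = 0} := by
    rw [← hf]
    exact TropPt.perp_dual hm
  obtain ⟨k, hk⟩ := face_dual (F.rat σ.1 σ.2) h0' h2
  exact ⟨m + k • m0, k • m0, add_mem hm (nsmul_mem h1 k), nsmul_mem h1 k, hk,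
    nsmul_mem h0' k, (add_sub_cancel_right _ _).symm⟩

/-- The monoid `S_σ ∩ τ^⊥` is finitely generated. -/
theorem dM_fg {σ τ : F.cones} (h : τ.1 ⊆ σ.1) : (dM (perpM τ.1) σ).FG := by
  classical
  obtain ⟨S, hS⟩ := gordan (F.rat σ.1 σ.2)
  refine ⟨S.subtype (· ∈ perpM τ.1), le_antisymm ?_ ?_⟩
  · rw [AddSubmonoid.closure_le]
    intro m hm
    have h1 : m.1 ∈ S := Finset.mem_subtype.1 hm
    show m.1 ∈ dualM σ.1
    rw [← hS]
    exact AddSubmonoid.subset_closure h1
  · have key : ∀ m ∈ AddSubmonoid.closure (S : Set (Fin n → ℤ)), ∀ hm : m ∈ perpM τ.1,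
        (⟨m, hm⟩ : perpM τ.1) ∈ AddSubmonoid.closure
          ((S.subtype (· ∈ perpM τ.1) : Finset (perpM τ.1)) : Set (perpM τ.1)) := by
      intro m hm
      induction hm using AddSubmonoid.closure_induction with
      | mem x hx =>
        intro hm
        exact AddSubmonoid.subset_closure (Finset.mem_subtype.2 hx)
      | zero =>
        intro hm
        exact AddSubmonoid.zero_mem _
      | add x y hx hy ihx ihy =>
        intro hm
        have hxd : x ∈ dualM σ.1 := by rw [← hS]; exact hx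
        have hyd : y ∈ dualM σ.1 := by rw [← hS]; exact hy
        have key2 : ∀ v ∈ τ.1, pair x v = 0 ∧ pair y v = 0 := by
          intro v hv
          have e1 := hm v hv
          rw [pair_add_left] at e1
          have e2 := hxd v (h hv)
          have e3 := hyd v (h hv)
          constructor <;> linarith
        have hx' : x ∈ perpM τ.1 := fun v hv => (key2 v hv).1
        have hy' : y ∈ perpM τ.1 := fun v hv => (key2 v hv).2
        have e : (⟨x + y, hm⟩ : perpM τ.1) = ⟨x, hx'⟩ + ⟨y, hy'⟩ := rfl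
        rw [e]
        exact AddSubmonoid.add_mem _ (ihx hx') (ihy hy')
    intro m hm
    have h1 : m.1 ∈ dualM σ.1 := hm
    rw [← hS] at h1
    exact key m.1 h1 m.2

end cone

variable {K : Type} [NormedField K] {X Y : Scheme.{0}} {n : ℕ} {F : Fan n} {ι : Str K Y}
  (T : Toric F Y ι) (φ : X ⟶ Y) [IsClosedImmersion φ] [IsIntegral X]

theorem span_chi {σ : F.cones} (a : Ax T φ σ) : ∃ G : dM (perpM (gc T φ).1) σ →₀ K,
    (G.sum fun m c => algebraMap K (Ax T φ σ) c * chi T φ (perpM (gc T φ).1) σ m) = a := by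
  classical
  obtain ⟨G, rfl⟩ := span_chS T φ σ a
  induction G using Finsupp.induction_linear with
  | zero => exact ⟨0, by rw [Finsupp.sum_zero_index, Finsupp.sum_zero_index]⟩
  | add f g hf hg =>
    obtain ⟨F1, h1⟩ := hf
    obtain ⟨F2, h2⟩ := hg
    refine ⟨F1 + F2, ?_⟩
    rw [Finsupp.sum_add_index' (fun _ => by rw [map_zero, zero_mul])
      (fun _ _ _ => by rw [map_add, add_mul]), h1, h2,
      Finsupp.sum_add_index' (fun _ => by rw [map_zero, zero_mul])
      (fun _ _ _ => by rw [map_add, add_mul])]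
  | single m c =>
    rw [Finsupp.sum_single_index (by rw [map_zero, zero_mul])]
    by_cases hm : m.1 ∈ perpM (gc T φ).1
    · refine ⟨Finsupp.single ⟨⟨m.1, hm⟩, m.2⟩ c, ?_⟩
      rw [Finsupp.sum_single_index (by rw [map_zero, zero_mul])]
      rfl
    · refine ⟨0, ?_⟩
      rw [Finsupp.sum_zero_index, chS_eq_zero T φ hm, mul_zero]

theorem span_chi' (a : Ax T φ (gc T φ)) : ∃ G : perpM (gc T φ).1 →₀ K,
    FA.ev (chi' T φ (gc T φ)) G = a := by
  classical
  obtain ⟨G, rfl⟩ := span_chS T φ (gc T φ) a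
  induction G using Finsupp.induction_linear with
  | zero => exact ⟨0, by rw [FA.ev, Finsupp.sum_zero_index, Finsupp.sum_zero_index]⟩
  | add f g hf hg =>
    obtain ⟨F1, h1⟩ := hf
    obtain ⟨F2, h2⟩ := hg
    refine ⟨F1 + F2, ?_⟩
    rw [FA.ev] at h1 h2 ⊢
    rw [Finsupp.sum_add_index' (fun _ => by rw [map_zero, zero_mul])
      (fun _ _ _ => by rw [map_add, add_mul]), h1, h2,
      Finsupp.sum_add_index' (fun _ => by rw [map_zero, zero_mul])
      (fun _ _ _ => by rw [map_add, add_mul])]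
  | single m c =>
    rw [Finsupp.sum_single_index (by rw [map_zero, zero_mul])]
    by_cases hm : m.1 ∈ perpM (gc T φ).1
    · refine ⟨Finsupp.single ⟨m.1, hm⟩ c, ?_⟩
      rw [FA.ev, Finsupp.sum_single_index (by rw [map_zero, zero_mul])]
      rfl
    · refine ⟨0, ?_⟩
      rw [FA.ev, Finsupp.sum_zero_index, chS_eq_zero T φ hm, mul_zero]

omit [IsClosedImmersion φ] in
theorem rx_inj {σ : F.cones} (h : (gc T φ).1 ⊆ σ.1) : Function.Injective (rx T φ h) := by
  have : Nonempty (opX φ (T.U (gc T φ))) := ⟨⟨genericPoint X, (mem_gen T φ).2 Set.Subset.rfl⟩⟩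
  exact map_injective_of_isIntegral X (homOfLE (fun _ hx => T.U_mono h hx :
      opX φ (T.U (gc T φ)) ≤ opX φ (T.U σ)))

/-- The chart rings of `X` are spanned by the characters in `gc^⊥`. -/
theorem chars {σ : F.cones} (h : (gc T φ).1 ⊆ σ.1) :
    X2.Chars K (dM (perpM (gc T φ).1) σ) (rx T φ h) (chi T φ (perpM (gc T φ).1) σ)
      (chi' T φ (gc T φ)) where
  zero := chS_zero T φ σ
  add m m' := chS_add T φ σ ⟨m.1.1, m.2⟩ ⟨m'.1.1, m'.2⟩
  zero' := chS_zero T φ (gc T φ)
  add' m m' := chS_add T φ (gc T φ) ⟨m.1, TropPt.perp_dual m.2⟩ ⟨m'.1, TropPt.perp_dual m'.2⟩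
  comp m := rx_chS T φ h _
  span := span_chi T φ
  span' := span_chi' T φ
  inj := rx_inj T φ h
  gen m := by
    obtain ⟨m1, m2, h1, h2, h3, h4, e⟩ := exists_split h m.2
    exact ⟨⟨⟨m1, h1⟩, h3⟩, ⟨⟨m2, h2⟩, h4⟩, Subtype.ext e⟩
  fgP := dM_fg h

theorem finiteType {σ : F.cones} (h : (gc T φ).1 ⊆ σ.1) : Algebra.FiniteType K (Ax T φ σ) :=
  (chars T φ h).finiteType

omit [IsClosedImmersion φ] in
/-- Characters which do not vanish at a point with cone `σ` are units on `U_σ`. -/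
theorem unit {w : TropPt F} (m : dM (perpM (gc T φ).1) w.cone)
    (hm : fn (dM (perpM (gc T φ).1) w.cone) w m ≠ 0) :
    ∃ m' : dM (perpM (gc T φ).1) w.cone, m + m' = 0 := by
  have h1 : m.1.1 ∈ perpM w.cone.1 := by
    by_contra h
    apply hm
    unfold fn TropPt.absv
    rw [dif_neg h]
  refine ⟨⟨-m.1, ?_⟩, ?_⟩
  · show (-m.1 : perpM (gc T φ).1).1 ∈ dualM w.cone.1
    exact TropPt.perp_dual ((perpM w.cone.1).neg_mem h1)
  · apply Subtype.ext
    exact add_neg_cancel _

end Pool.Agent.TD.X1
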