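import Pool.Agent.TD.X1.Defs
import Pool.Agent.TD.Y.Ring

/-!
# The characters on the charts of a subvariety (MP_90358a_ag, section X.b)
-/

open scoped Topology NNReal
open AlgebraicGeometry CategoryTheory

namespace Pool.Agent.TD.X1

variable {K : Type} [NormedField K] {X Y : Scheme.{0}} {n : ℕ} {F : Fan n} {ι : Str K Y}
  (T : Toric F Y ι) (φ : X ⟶ Y)

theorem chS_zero (σ : F.cones) : chS T φ σ 0 = 1 := by
  show fnH φ (T.U σ) (T.chi σ 0) = 1
  rw [T.chi_zero, map_one]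

theorem chS_add (σ : F.cones) (m m' : Sg σ.1) : chS T φ σ (m + m') = chS T φ σ m * chS T φ σ m' := by
  show fnH φ (T.U σ) (T.chi σ (m + m')) = fnH φ (T.U σ) (T.chi σ m) * fnH φ (T.U σ) (T.chi σ m')
  rw [T.chi_add, map_mul]

theorem fnH_res {V W : Y.Opens} (h : V ≤ W) (f : Γ(Y, W)) :
    X.presheaf.map (homOfLE (fun _ hx => h hx : opX φ V ≤ opX φ W)).op (fnH φ W f) =
      fnH φ V (Y.presheaf.map (homOfLE h).op f) := by
  have h1 := φ.naturality (homOfLE h).op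
  have h2 := congrArg (fun g => g f) (congrArg CommRingCat.Hom.hom h1)
  exact h2.symm

theorem rx_chS {σ τ : F.cones} (h : τ.1 ⊆ σ.1) (m : Sg σ.1) : rx T φ h (chS T φ σ m) =
    chS T φ τ ⟨m.1, Toric.dual_mono h m.2⟩ := by
  have h1 := fnH_res φ (T.U_mono h) (T.chi σ m)
  rw [T.chi_res σ τ (T.U_mono h) m ⟨m.1, Toric.dual_mono h m.2⟩ h rfl] at h1
  exact h1

theorem chS_unit {σ : F.cones} {m : Sg σ.1} (hm : m.1 ∈ perpM σ.1) : IsUnit (chS T φ σ m) := by
  have h : chS T φ σ m * chS T φ σ ⟨-m.1, TropPt.perp_dual ((perpM σ.1).neg_mem hm)⟩ = 1 := by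
    rw [← chS_add, ← chS_zero T φ σ]
    congr 1
    apply Subtype.ext
    show m.1 + -m.1 = 0
    exact add_neg_cancel _
  exact IsUnit.of_mul_eq_one _ h

theorem surj [IsClosedImmersion φ] (σ : F.cones) : Function.Surjective (fnH φ (T.U σ)) :=
  φ.app_surjective (T.U σ) (T.affine σ)

theorem affineX [IsClosedImmersion φ] (σ : F.cones) : IsAffineOpen (opX φ (T.U σ)) :=
  (T.affine σ).preimage φ

theorem alg_eq (σ : F.cones) (c : K) : algebraMap K (Ax T φ σ) c =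
    (fnH φ (T.U σ) (stK ι (T.U σ) c) : Fn X (opX φ (T.U σ))) := by
  have h1 := fnH_res φ (le_top : T.U σ ≤ ⊤) (ι c)
  exact h1

/-- Every function on `φ⁻¹(U_σ)` is a linear combination of characters. -/
theorem span_chS [IsClosedImmersion φ] (σ : F.cones) (a : Ax T φ σ) :
    ∃ G : Sg σ.1 →₀ K, (G.sum fun m c => algebraMap K (Ax T φ σ) c * chS T φ σ m) = a := by
  obtain ⟨f, hf⟩ := surj T φ σ a
  obtain ⟨G, rfl⟩ := (T.basis σ).2 f
  refine ⟨G, ?_⟩
  refine Eq.trans ?_ hf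
  show _ = fnH φ (T.U σ) (G.sum fun m c => stK ι (T.U σ) c * T.chi σ m)
  unfold Finsupp.sum
  rw [map_sum]
  refine Finset.sum_congr rfl fun m _ => ?_
  rw [map_mul]
  exact congrArg (fun b : Fn X (opX φ (T.U σ)) => b * fnH φ (T.U σ) (T.chi σ m))
    (alg_eq T φ σ (G m))

variable [IsIntegral X]

theorem mem_gen {σ : F.cones} : genericPoint X ∈ opX φ (T.U σ) ↔ (gc T φ).1 ⊆ σ.1 :=
  T.mem_U_iff

theorem gc_le (x : X) : (gc T φ).1 ⊆ (T.minCone (φ x)).1 := by
  rw [← mem_gen]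
  exact (genericPoint_specializes x).mem_open (opX φ _).2 (T.mem_minCone (φ x))

theorem gc_le_tropX (z : An X (Str.pb φ ι)) : (gc T φ).1 ⊆ (T.tropX φ z).cone.1 :=
  gc_le T φ z.pt

theorem isDomain {σ : F.cones} (h : (gc T φ).1 ⊆ σ.1) : IsDomain (Ax T φ σ) := by
  have : Nonempty (opX φ (T.U σ)) := ⟨⟨genericPoint X, (mem_gen T φ).2 h⟩⟩
  exact inferInstanceAs (IsDomain Γ(X, opX φ (T.U σ)))

/-- The characters outside `gc^⊥` vanish on `X`. -/
theorem chS_eq_zero {σ : F.cones} {m : Sg σ.1} (hm : m.1 ∉ perpM (gc T φ).1) :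
    chS T φ σ m = 0 := by
  by_contra h
  apply hm
  have h1 : X.basicOpen (fnH φ (T.U σ) (T.chi σ m)) = φ ⁻¹ᵁ Y.basicOpen (T.chi σ m) :=
    (Scheme.preimage_basicOpen φ (T.chi σ m)).symm
  have h2 : genericPoint X ∈ X.basicOpen (fnH φ (T.U σ) (T.chi σ m)) := by
    have h3 : ((X.basicOpen (fnH φ (T.U σ) (T.chi σ m)) : X.Opens) : Set X).Nonempty := by
      rw [Set.nonempty_iff_ne_empty]
      intro h4
      apply h
      have h5 : X.basicOpen (fnH φ (T.U σ) (T.chi σ m)) = ⊥ := TopologicalSpace.Opens.ext h4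
      rw [basicOpen_eq_bot_iff] at h5
      exact h5
    exact (genericPoint_spec X).mem_open_set_iff (X.basicOpen _).2 |>.2
      (by rwa [Set.univ_inter])
  rw [h1] at h2
  have h3 : φ (genericPoint X) ∈ Y.basicOpen (T.chi σ m) := h2
  rw [T.basicOpen_chi, T.mem_U_iff] at h3
  exact fun x hx => (h3 hx).2

/-- The characters in `gc^⊥` do not vanish on `X`. -/
theorem chS_ne_zero {σ : F.cones} (h : (gc T φ).1 ⊆ σ.1) {m : Sg σ.1}
    (hm : m.1 ∈ perpM (gc T φ).1) : chS T φ σ m ≠ 0 := by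
  intro h0
  have h1 := rx_chS T φ h m
  rw [h0, map_zero] at h1
  have h2 := chS_unit T φ (σ := gc T φ) (m := ⟨m.1, Toric.dual_mono h m.2⟩) hm
  have := isDomain T φ (σ := gc T φ) (Set.Subset.refl _)
  rw [← h1] at h2
  exact not_isUnit_zero h2

end Pool.Agent.TD.X1
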