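import Pool.Agent.TD.X.Map
import Pool.Agent.TD.Y.Open
import Pool.Agent.TD.Y.Chart2
import Pool.Agent.TD.X2.Defs
import Pool.Agent.TD.R.Defs

/-!
# The charts of a subvariety of a toric variety (MP_90358a_ag, section X.b): definitions

`φ : X → Y` a closed immersion, `X` integral, `Y` toric.  `gc` is the cone of the stratum of `Y`
which contains the generic point of `X`; the characters which do not vanish identically on `X` are
those in `gc^⊥`.
-/

open scoped Topology NNReal
open AlgebraicGeometry CategoryTheory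

namespace Pool.Agent.TD.X1

variable {K : Type} [NormedField K] {X Y : Scheme.{0}} {n : ℕ} {F : Fan n} {ι : Str K Y}
  (T : Toric F Y ι) (φ : X ⟶ Y)

/-- The function `|χ^m|`, `m ∈ P`, on `Trop(Y)`. -/
noncomputable def fn {N : AddSubgroup (Fin n → ℤ)} (P : AddSubmonoid N) (b : TropPt F)
    (m : P) : ℝ := TropPt.absv m.1.1 b

/-- The characters in `N` which are functions on `U_σ`. -/
def dM (N : AddSubgroup (Fin n → ℤ)) (σ : F.cones) : AddSubmonoid N := (dualM σ.1).comap N.subtype

/-- The ring `Γ(X, φ⁻¹(U_σ))`. -/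
def Ax (σ : F.cones) : Type := Fn X (opX φ (T.U σ))

noncomputable instance (σ : F.cones) : CommRing (Ax T φ σ) :=
  inferInstanceAs (CommRing (Fn X (opX φ (T.U σ))))

/-- The identity. -/
noncomputable def axE (σ : F.cones) : Ax T φ σ ≃+* Fn X (opX φ (T.U σ)) := RingEquiv.refl _

noncomputable instance (σ : F.cones) : Algebra K (Ax T φ σ) :=
  ((axE T φ σ).symm.toRingHom.comp (stK (Str.pb φ ι) (opX φ (T.U σ)))).toAlgebra

theorem axE_alg (σ : F.cones) (c : K) : axE T φ σ (algebraMap K (Ax T φ σ) c) =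
    stK (Str.pb φ ι) (opX φ (T.U σ)) c := rfl

/-- The restriction `Γ(X, φ⁻¹(U_σ)) → Γ(X, φ⁻¹(U_τ))`, `τ` a face of `σ`. -/
noncomputable def rx {σ τ : F.cones} (h : τ.1 ⊆ σ.1) : Ax T φ σ →ₐ[K] Ax T φ τ where
  toRingHom := (axE T φ τ).symm.toRingHom.comp
    ((X.presheaf.map (homOfLE (fun _ hx => T.U_mono h hx :
      opX φ (T.U τ) ≤ opX φ (T.U σ))).op).hom.comp (axE T φ σ).toRingHom)
  commutes' c := Toric.stK_res (Str.pb φ ι) (fun _ hx => T.U_mono h hx :
      opX φ (T.U τ) ≤ opX φ (T.U σ)) c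

/-- The characters on `φ⁻¹(U_σ)`. -/
noncomputable def chS (σ : F.cones) (m : Sg σ.1) : Ax T φ σ := (axE T φ σ).symm (fnX φ (T.chi σ m))

/-- The characters in `N` on `φ⁻¹(U_σ)`. -/
noncomputable def chi (N : AddSubgroup (Fin n → ℤ)) (σ : F.cones) (m : dM N σ) : Ax T φ σ :=
  chS T φ σ ⟨m.1.1, m.2⟩

/-- The invertible characters on `φ⁻¹(U_τ)`. -/
noncomputable def chi' (τ : F.cones) (m : perpM τ.1) : Ax T φ τ :=
  chS T φ τ ⟨m.1, TropPt.perp_dual m.2⟩

/-- The cone of the stratum which contains the generic point of `X`. -/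
noncomputable def gc [IsIntegral X] : F.cones := T.minCone (φ (genericPoint X))

end Pool.Agent.TD.X1
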