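import Pool.Agent.TD.X1.Chars
import Pool.Agent.TD.Y.TropLoc

/-!
# Points of the tropical toric variety as functions on characters (MP_90358a_ag, section X.b)

`S` is a subset of `Trop(Y)` in the closure of the stratum of `τ`; the part of `S` in the chart of
`σ` is identified by `fn` with a set of functions on `S_σ ∩ τ^⊥`.
-/

open scoped Topology NNReal
open AlgebraicGeometry CategoryTheory

namespace Pool.Agent.TD.X1

section abs

variable {α β : Type} [TopologicalSpace α] [TopologicalSpace β]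

theorem map_nhdsWithin {f : α → β} {s : Set α} {b : α}
    (h1 : Filter.Tendsto f (𝓝[s] b) (𝓝 (f b)))
    (h2 : Filter.principal s ⊓ Filter.comap f (𝓝 (f b)) ≤ 𝓝 b) :
    Filter.map f (𝓝[s] b) = 𝓝[f '' s] (f b) := by
  have e : 𝓝[s] b = Filter.comap f (𝓝 (f b)) ⊓ Filter.principal s := by
    refine le_antisymm (le_inf (Filter.map_le_iff_le_comap.1 h1) inf_le_right) ?_
    refine le_inf ?_ inf_le_right
    rw [inf_comm]
    exact h2
  rw [e, Filter.push_pull', Filter.map_principal]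
  rfl

theorem exists_open {T A : Set β} (hA : A ⊆ T) (h : ∀ a ∈ A, A ∈ 𝓝[T] a) :
    ∃ U : Set β, IsOpen U ∧ T ∩ U = A := by
  have h1 : ∀ a : A, ∃ u : Set β, IsOpen u ∧ a.1 ∈ u ∧ u ∩ T ⊆ A := by
    intro a
    obtain ⟨u, hu, hau, hs⟩ := mem_nhdsWithin.1 (h a.1 a.2)
    exact ⟨u, hu, hau, hs⟩
  choose u hu hau hs using h1
  refine ⟨⋃ a, u a, isOpen_iUnion hu, Set.Subset.antisymm ?_ ?_⟩
  · rintro x ⟨hx, hx'⟩
    obtain ⟨a, ha⟩ := Set.mem_iUnion.1 hx'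
    exact hs a ⟨ha, hx⟩
  · intro x hx
    exact ⟨hA hx, Set.mem_iUnion.2 ⟨⟨x, hx⟩, hau ⟨x, hx⟩⟩⟩

end abs

variable {n : ℕ} {F : Fan n} {τ σ : F.cones} {S : Set (TropPt F)}

theorem absv_out {b : TropPt F} (hb : τ.1 ⊆ b.cone.1) {m : Fin n → ℤ} (hm : m ∉ perpM τ.1) :
    TropPt.absv m b = 0 :=
  TropLoc.absv_not fun h => hm (TropPt.perp_sub hb h)

theorem fn_inj : Set.InjOn (fn (dM (perpM τ.1) σ)) {b | τ.1 ⊆ b.cone.1 ∧ b ∈ TropPt.opn σ} := by
  rintro b ⟨hb, hb'⟩ c ⟨hc, hc'⟩ e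
  refine TropPt.ext_absv hb' hc' fun m hm => ?_
  by_cases h : m ∈ perpM τ.1
  · exact congrFun e ⟨⟨m, h⟩, hm⟩
  · rw [absv_out hb h, absv_out hc h]

theorem continuousAt_fn {b : TropPt F} (hb : b ∈ TropPt.opn σ) :
    ContinuousAt (fn (dM (perpM τ.1) σ)) b := by
  rw [continuousAt_pi]
  intro m
  exact (TropPt.continuousOn_absv σ ⟨m.1.1, m.2⟩).continuousAt
    ((TropPt.isOpen_opn σ).mem_nhds hb)

/-- The topology of `Trop(U_σ)` is defined by the characters. -/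
theorem fn_le {b : TropPt F} (hb : τ.1 ⊆ b.cone.1) (hbσ : b ∈ TropPt.opn σ) :
    Filter.principal {b | τ.1 ⊆ b.cone.1 ∧ b ∈ TropPt.opn σ} ⊓
      Filter.comap (fn (dM (perpM τ.1) σ)) (𝓝 (fn (dM (perpM τ.1) σ) b)) ≤ 𝓝 b := by
  set l := Filter.principal {b | τ.1 ⊆ b.cone.1 ∧ b ∈ TropPt.opn σ} ⊓
      Filter.comap (fn (dM (perpM τ.1) σ)) (𝓝 (fn (dM (perpM τ.1) σ) b)) with hl
  have hl1 : ∀ᶠ b' in l, τ.1 ⊆ b'.cone.1 ∧ b' ∈ TropPt.opn σ :=
    Filter.mem_inf_of_left (Filter.mem_principal_self _)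
  have hl2 : ∀ m ∈ dualM σ.1, m ∈ perpM τ.1 →
      Filter.Tendsto (fun b' : TropPt F => TropPt.absv m b') l (𝓝 (TropPt.absv m b)) := by
    intro m hm hm'
    have h1 : Filter.Tendsto (fn (dM (perpM τ.1) σ)) l (𝓝 (fn (dM (perpM τ.1) σ) b)) :=
      Filter.tendsto_comap.mono_left inf_le_right
    exact (tendsto_pi_nhds.1 h1) ⟨⟨m, hm'⟩, hm⟩
  obtain ⟨m0, h0, hf⟩ := F.face_of_sub (σ := σ) (τ := b.cone) hbσ
  have h0' : m0 ∈ dualM σ.1 := h0
  have h1 : m0 ∈ perpM b.cone.1 := by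
    intro x hx
    rw [hf] at hx
    exact hx.2
  have h2 : m0 ∈ perpM τ.1 := TropPt.perp_sub hb h1
  have ht0 := hl2 m0 h0' h2
  have hb0 : TropPt.absv m0 b ≠ 0 := TropPt.absv_ne_zero_iff.2 h1
  have hl3 : ∀ᶠ b' in l, b' ∈ TropPt.opn b.cone ∧ TropPt.absv m0 b' ≠ 0 := by
    filter_upwards [hl1, ht0.eventually_ne hb0] with b' h3 h4
    refine ⟨fun x hx => ?_, h4⟩
    rw [hf]
    exact ⟨h3.2 hx, TropPt.absv_ne_zero_iff.1 h4 x hx⟩
  have hl4 : ∀ g ∈ dualM b.cone.1, Filter.Tendsto (fun b' : TropPt F => TropPt.absv g b') l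
      (𝓝 (TropPt.absv g b)) := by
    intro g hg
    by_cases hgt : g ∈ perpM τ.1
    · have hg' : g ∈ dualM {x ∈ σ.1 | pair m0 x = 0} := by
        rw [← hf]
        exact hg
      obtain ⟨k, hk⟩ := face_dual (F.rat σ.1 σ.2) h0' hg'
      have key : ∀ b' : TropPt F, b' ∈ TropPt.opn b.cone → TropPt.absv m0 b' ≠ 0 →
          TropPt.absv g b' = TropPt.absv (g + k • m0) b' / TropPt.absv m0 b' ^ k := by
        intro b' hb' hb0'
        have h5 : k • m0 ∈ dualM b.cone.1 := nsmul_mem (TropPt.perp_dual h1) k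
        rw [TropPt.absv_add hb' hg h5, TropPt.absv_nsmul hb' (TropPt.perp_dual h1),
          mul_div_cancel_right₀ _ (pow_ne_zero _ hb0')]
      rw [key b (TropLoc.mem_opn_self b) hb0]
      have h6 := (hl2 (g + k • m0) hk (add_mem hgt (nsmul_mem h2 k))).div (ht0.pow k)
        (pow_ne_zero _ hb0)
      refine h6.congr' ?_
      filter_upwards [hl3] with b' h7
      exact (key b' h7.1 h7.2).symm
    · rw [absv_out hb hgt]
      refine Filter.Tendsto.congr' ?_ tendsto_const_nhds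
      filter_upwards [hl1] with b' h3
      exact (absv_out h3.1 hgt).symm
  refine le_trans ?_ (TropLoc.le_nhds b)
  refine le_inf ?_ ?_
  · rw [Filter.le_principal_iff]
    exact hl3.mono fun b' h => h.1
  · rw [← Filter.map_le_iff_le_comap]
    refine tendsto_pi_nhds.2 fun g => ?_
    exact hl4 g.1 (gens_mem g.2)

/-- The part of `S` in the chart, as a set of functions. -/
def fnS (τ σ : F.cones) (S : Set (TropPt F)) : Set (dM (perpM τ.1) σ → ℝ) :=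
  fn (dM (perpM τ.1) σ) '' (S ∩ TropPt.opn σ)

theorem map_fn (hS : ∀ b ∈ S, τ.1 ⊆ b.cone.1) {b : TropPt F} (hb : b ∈ S)
    (hbσ : b ∈ TropPt.opn σ) : Filter.map (fn (dM (perpM τ.1) σ)) (𝓝[S] b) =
      𝓝[fnS τ σ S] (fn (dM (perpM τ.1) σ) b) := by
  have e : 𝓝[S] b = 𝓝[S ∩ TropPt.opn σ] b :=
    (nhdsWithin_inter_of_mem' (mem_nhdsWithin_of_mem_nhds
      ((TropPt.isOpen_opn σ).mem_nhds hbσ))).symm
  rw [e]
  refine map_nhdsWithin ((continuousAt_fn hbσ).mono_left nhdsWithin_le_nhds) ?_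
  refine le_trans (inf_le_inf_right _ ?_) (fn_le (hS b hb) hbσ)
  rw [Filter.principal_mono]
  exact fun b' hb' => ⟨hS b' hb'.1, hb'.2⟩

theorem ev_iff (hS : ∀ b ∈ S, τ.1 ⊆ b.cone.1) {b : TropPt F} (hb : b ∈ S)
    (hbσ : b ∈ TropPt.opn σ) {p : (dM (perpM τ.1) σ → ℝ) → Prop} :
    (∀ᶠ f in 𝓝[fnS τ σ S] (fn (dM (perpM τ.1) σ) b), p f) ↔
      ∀ᶠ b' in 𝓝[S] b, p (fn (dM (perpM τ.1) σ) b') := by
  rw [← map_fn hS hb hbσ]
  exact Filter.eventually_map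

/-- The inverse of `fn`. -/
noncomputable def ifn [Nonempty (TropPt F)] (τ σ : F.cones) (S : Set (TropPt F)) :
    (dM (perpM τ.1) σ → ℝ) → TropPt F :=
  Function.invFunOn (fn (dM (perpM τ.1) σ)) (S ∩ TropPt.opn σ)

theorem ifn_fn [Nonempty (TropPt F)] (hS : ∀ b ∈ S, τ.1 ⊆ b.cone.1) {b : TropPt F} (hb : b ∈ S)
    (hbσ : b ∈ TropPt.opn σ) : ifn τ σ S (fn (dM (perpM τ.1) σ) b) = b := by
  have h1 : Set.InjOn (fn (dM (perpM τ.1) σ)) (S ∩ TropPt.opn σ) := by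
    refine fn_inj.mono ?_
    intro b' hb'
    exact ⟨hS b' hb'.1, hb'.2⟩
  have h2 : b ∈ S ∩ TropPt.opn σ := ⟨hb, hbσ⟩
  exact h1.leftInvOn_invFunOn h2

end Pool.Agent.TD.X1
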