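import Pool.Agent.TD.X1.Top

/-!
# The tropicalization map in a chart (MP_90358a_ag, section X.b)
-/

open scoped Topology NNReal
open AlgebraicGeometry CategoryTheory

namespace Pool.Agent.TD.X1

variable {K : Type} [NormedField K] {X Y : Scheme.{0}} {n : ℕ} {F : Fan n} {ι : Str K Y}
  (T : Toric F Y ι) (φ : X ⟶ Y)

/-- Absolute values of functions and the map `X^an → Y^an`. -/
theorem absv_map (U : Op Y) (f : Fn Y U) (z : An X (Str.pb φ ι)) :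
    An.absv U f (An.map φ ι z) = An.absv (opX φ U) (fnX φ f) z := by
  by_cases h : z.pt ∈ opX φ U
  · have h' : (An.map φ ι z).pt ∈ U := h
    rw [An.absv_of_mem _ h, An.absv_of_mem _ h']
    have h1 := congrArg (fun g => g f) (congrArg CommRingCat.Hom.hom
      (Scheme.Hom.germ_stalkMap φ U z.pt h))
    exact congrArg z.v h1
  · have h' : (An.map φ ι z).pt ∉ U := h
    unfold An.absv
    rw [dif_neg h, dif_neg h']

theorem tropX_mem_opn {z : An X (Str.pb φ ι)} {σ : F.cones} :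
    T.tropX φ z ∈ TropPt.opn σ ↔ z ∈ An.opn (Str.pb φ ι) (opX φ (T.U σ)) :=
  T.trop_mem_opn

theorem absv_tropX {z : An X (Str.pb φ ι)} {σ : F.cones}
    (hz : z ∈ An.opn (Str.pb φ ι) (opX φ (T.U σ))) (m : Sg σ.1) :
    TropPt.absv m.1 (T.tropX φ z) = An.absv (opX φ (T.U σ)) (fnX φ (T.chi σ m)) z := by
  have h1 : (An.map φ ι z).pt ∈ T.U σ := hz
  unfold Toric.tropX
  rw [T.absv_trop h1 m, absv_map]

/-- The chart `(φ⁻¹ U_σ)^an → M(A_σ)`. -/
noncomputable def tb (σ : F.cones) (z : An.opn (Str.pb φ ι) (opX φ (T.U σ))) :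
    Ber K (Ax T φ σ) := An.toBer (axE T φ σ).toRingHom (axE_alg T φ σ) z

theorem tb_v (σ : F.cones) (z : An.opn (Str.pb φ ι) (opX φ (T.U σ))) (a : Ax T φ σ) :
    (tb T φ σ z).v a = An.absv (opX φ (T.U σ)) (axE T φ σ a) z.1 := rfl

theorem tb_homeo [IsClosedImmersion φ] (σ : F.cones) : IsHomeomorph (tb T φ σ) :=
  An.toBer_homeo (ι := Str.pb φ ι) (affineX T φ σ) (axE T φ σ) (axE_alg T φ σ)

theorem tr_tb (N : AddSubgroup (Fin n → ℤ)) (σ : F.cones)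
    (z : An.opn (Str.pb φ ι) (opX φ (T.U σ))) :
    X2.tr (chi T φ N σ) (tb T φ σ z) = fn (dM N σ) (T.tropX φ z.1) := by
  funext m
  exact (absv_tropX T φ z.2 ⟨m.1.1, m.2⟩).symm

theorem range_tr [IsClosedImmersion φ] (N : AddSubgroup (Fin n → ℤ)) (σ : F.cones) :
    Set.range (X2.tr (K := K) (chi T φ N σ)) =
      fn (dM N σ) '' (T.TropX φ ∩ TropPt.opn σ) := by
  ext f
  constructor
  · rintro ⟨y, rfl⟩
    obtain ⟨z, rfl⟩ := (tb_homeo T φ σ).surjective y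
    refine ⟨T.tropX φ z.1, ⟨⟨z.1, rfl⟩, ?_⟩, (tr_tb T φ N σ z).symm⟩
    exact (tropX_mem_opn T φ).2 z.2
  · rintro ⟨b, ⟨⟨z, rfl⟩, hb⟩, rfl⟩
    have hz := (tropX_mem_opn T φ).1 hb
    exact ⟨tb T φ σ ⟨z, hz⟩, tr_tb T φ N σ ⟨z, hz⟩⟩

variable [IsIntegral X]

theorem gc_le_of_mem {b : TropPt F} (hb : b ∈ T.TropX φ) : (gc T φ).1 ⊆ b.cone.1 := by
  obtain ⟨z, rfl⟩ := hb
  exact gc_le_tropX T φ z

/-- The fibres of the tropicalization map. -/
theorem tr_eq_iff {σ : F.cones} {w : TropPt F} (hw : (gc T φ).1 ⊆ w.cone.1)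
    (hwσ : w ∈ TropPt.opn σ) (z : An.opn (Str.pb φ ι) (opX φ (T.U σ))) :
    X2.tr (chi T φ (perpM (gc T φ).1) σ) (tb T φ σ z) = fn (dM (perpM (gc T φ).1) σ) w ↔
      T.tropX φ z.1 = w := by
  rw [tr_tb]
  constructor
  · intro h
    exact fn_inj ⟨gc_le_tropX T φ z.1, (tropX_mem_opn T φ).2 z.2⟩ ⟨hw, hwσ⟩ h
  · rintro rfl
    rfl

theorem range_tr' [IsClosedImmersion φ] (σ : F.cones) :
    Set.range (X2.tr (K := K) (chi T φ (perpM (gc T φ).1) σ)) =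
      fnS (gc T φ) σ (T.TropX φ) := range_tr T φ _ σ

end Pool.Agent.TD.X1
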